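import Mathlib

/-!
# Subtorsors of the general linear group over a field of algebraic numbers
-/

namespace Pool.Agent.TH127.PT

open Matrix MvPolynomial

/-- The complex points of a `K`-subtorsor of `GL_N`: a set `T` of invertible matrices with
`x y⁻¹ z ∈ T` for all `x, y, z ∈ T`, which is the set of the invertible zeros of a family of
polynomials with coefficients in `K`. -/
structure IsSubtorsor {N : Type} [Fintype N] [DecidableEq N] (K : Subfield ℂ)
    (T : Set (Matrix N N ℂ)) : Prop where
  isUnit : ∀ x ∈ T, IsUnit x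
  torsor : ∀ x ∈ T, ∀ y ∈ T, ∀ z ∈ T, x * y⁻¹ * z ∈ T
  algebraic : ∃ I : Set (MvPolynomial (N × N) ℂ), (∀ p ∈ I, ∀ m, p.coeff m ∈ K) ∧
    ∀ x : Matrix N N ℂ, x ∈ T ↔ IsUnit x ∧
      ∀ p ∈ I, MvPolynomial.eval (fun b => x b.1 b.2) p = 0

/-- The automorphisms of the complex numbers that fix all elements of `K`. -/
def fixing (K : Subfield ℂ) : Subgroup (ℂ ≃+* ℂ) where
  carrier := {σ | ∀ x ∈ K, σ x = x}
  one_mem' := fun _ _ => rfl
  mul_mem' := by
    intro a b ha hb x hx
    change a (b x) = x
    rw [hb x hx, ha x hx]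
  inv_mem' := by
    intro a ha x hx
    change a.symm x = x
    rw [RingEquiv.symm_apply_eq, ha x hx]

end Pool.Agent.TH127.PT
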