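import Mathlib
import Pool.Agent.TH127.SC.Transfer

/-!
# Relations with respect to a group whose classes are small, or good without smaller fields
-/

set_option linter.unusedSectionVars false
set_option linter.unusedVariables false

namespace Pool.Agent.TH127.PT

open Pool.Agent.TH127.SC

section int

variable {Y V : Type*} [Finite Y] [AddCommGroup V] [Module ℚ V]

/-- A linear functional with integral values on a finite set that separates its points. -/
theorem exists_int (W : Y → V) : ∃ (f : V →ₗ[ℚ] ℚ) (W' : Y → ℤ),
    (∀ y, (W' y : ℚ) = f (W y)) ∧ ∀ y z, W' y = W' z → W y = W z := by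
  classical
  have := Fintype.ofFinite Y
  obtain ⟨f, hf⟩ := Module.exists_dual_forall_apply_ne_zero (K := ℚ)
    (fun p : {p : Y × Y // W p.1 ≠ W p.2} => W p.1.1 - W p.1.2) (fun p => sub_ne_zero.2 p.2)
  let D : ℕ := ∏ y, (f (W y)).den
  have hD : D ≠ 0 := Finset.prod_ne_zero_iff.2 fun y _ => (f (W y)).den_nz
  have h1 : ∀ y, ∃ n : ℤ, (n : ℚ) = (D : ℚ) * f (W y) := by
    intro y
    obtain ⟨k, hk⟩ : (f (W y)).den ∣ D := Finset.dvd_prod_of_mem _ (Finset.mem_univ y)
    refine ⟨k * (f (W y)).num, ?_⟩
    rw [hk]
    push_cast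
    have h2 := Rat.mul_den_eq_num (f (W y))
    rw [← h2]
    ring
  choose W' hW' using h1
  refine ⟨(D : ℚ) • (f : V →ₗ[ℚ] ℚ), W', fun y => ?_, fun y z h => ?_⟩
  · rw [hW']
    rfl
  · by_contra hne
    apply hf ⟨(y, z), hne⟩
    have h3 : (D : ℚ) * f (W y) = D * f (W z) := by rw [← hW', ← hW', h]
    have h4 := mul_left_cancel₀ (Nat.cast_ne_zero.2 hD) h3
    change f (W y - W z) = 0
    rw [map_sub, h4, sub_self]

end int

/-- The class of `y₀` is an orbit of its stabilizer, and it consists of at most two pairs, or it is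
good and every subgroup larger than the stabilizer of `y₀` conjugates `y₀`. -/
def Tame (G : Type*) {Y : Type*} [Group G] [MulAction G Y] (cb : Y → Y) (y₀ : Y) : Prop :=
  (∀ z, Link G cb y₀ z → ∃ g : G, g • y₀ = z) ∧
    (Nat.card {z : Y // Link G cb y₀ z} ≤ 4 ∨
      (GoodClass G cb y₀ ∧ ∀ H : Subgroup G, MulAction.stabilizer G y₀ < H →
        ∃ g ∈ H, g • y₀ = cb y₀))

variable {G Y : Type*} [Group G] [MulAction G Y] {cb : Y → Y} [Fintype Y]
  (hcb : ∀ y, cb (cb y) = y) (hne : ∀ y, cb y ≠ y)
  (hG : ∀ (g : G) (y : Y), g • cb y = cb (g • y))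

include hcb hne hG in
/-- Relations vanish at the points with tame classes. -/
theorem zero_of_tame [Finite G] {y₀ : Y} (h : Tame G cb y₀) {W : Y → ℤ}
    (hW : ∀ y, W (cb y) = -W y) (hinj : Function.Injective W) {c : Y → ℤ}
    (hc : ∀ y, c (cb y) = -c y) (hrel : ∀ g : G, ∑ y, c y * W (g • y) = 0) : c y₀ = 0 := by
  classical
  have := Fintype.ofFinite G
  obtain ⟨htr, h⟩ := h
  have hW0 : ∀ y, W y ≠ 0 := by
    intro y h0
    apply hne y
    apply hinj
    rw [hW, h0, neg_zero]
  rcases h with h | ⟨hgood, hrig⟩
  · -- at most two pairs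
    have hcl := core_split hG hW hrel y₀
    set B := Finset.univ.filter (fun z => Link G cb y₀ z) with hB
    have hmem : ∀ z, z ∈ B ↔ Link G cb y₀ z := fun z => by simp [hB]
    have hBc : B.card ≤ 4 := by
      rw [hB, ← Fintype.card_subtype, ← Nat.card_eq_fintype_card]
      exact h
    have hy0 : y₀ ∈ B := (hmem _).2 (link_refl _)
    have hy0' : cb y₀ ∈ B := (hmem _).2 (link_cb hcb hne hG _)
    by_cases h2 : B = {y₀, cb y₀}
    · have h3 := hcl 1
      rw [h2, Finset.sum_pair (Ne.symm (hne y₀)), one_smul, one_smul, hc, hW] at h3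
      have h4 : c y₀ * W y₀ = 0 := by linarith
      exact (mul_eq_zero.1 h4).resolve_right (hW0 _)
    · obtain ⟨y₁, hy1, hy1'⟩ : ∃ y₁ ∈ B, y₁ ∉ ({y₀, cb y₀} : Finset Y) := by
        by_contra hcon
        push Not at hcon
        apply h2
        apply Finset.Subset.antisymm (fun z hz => hcon z hz)
        intro z hz
        rw [Finset.mem_insert, Finset.mem_singleton] at hz
        rcases hz with rfl | rfl
        · exact hy0
        · exact hy0'
      rw [Finset.mem_insert, Finset.mem_singleton, not_or] at hy1'
      obtain ⟨n1, n2⟩ := hy1'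
      have n3 : cb y₁ ≠ y₀ := fun h => n2 (by rw [← h, hcb])
      have n4 : cb y₁ ≠ cb y₀ := fun h => n1 (by rw [← hcb y₁, h, hcb])
      have hQ : ({y₀, cb y₀, y₁, cb y₁} : Finset Y) = B := by
        apply Finset.eq_of_subset_of_card_le
        · intro z hz
          simp only [Finset.mem_insert, Finset.mem_singleton] at hz
          rcases hz with rfl | rfl | rfl | rfl
          · exact hy0
          · exact hy0'
          · exact hy1
          · exact (hmem _).2 (link_trans ((hmem _).1 hy1) (link_cb hcb hne hG _))
        · rw [Finset.card_insert_of_notMem, Finset.card_insert_of_notMem,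
            Finset.card_insert_of_notMem, Finset.card_singleton]
          · exact hBc
          · rw [Finset.mem_singleton]
            exact Ne.symm (hne y₁)
          · rw [Finset.mem_insert, Finset.mem_singleton]
            rintro (h | h)
            · exact n2 h.symm
            · exact n4 h.symm
          · rw [Finset.mem_insert, Finset.mem_insert, Finset.mem_singleton]
            rintro (h | h | h)
            · exact hne y₀ h.symm
            · exact n1 h.symm
            · exact n3 h.symm
      have hsum : ∀ g : G, c y₀ * W (g • y₀) + c y₁ * W (g • y₁) = 0 := by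
        intro g
        have h3 := hcl g
        rw [← hQ, Finset.sum_insert, Finset.sum_insert, Finset.sum_insert,
          Finset.sum_singleton] at h3
        · rw [hG, hG, hc, hc, hW, hW] at h3
          linarith
        · rw [Finset.mem_singleton]
          exact Ne.symm (hne y₁)
        · rw [Finset.mem_insert, Finset.mem_singleton]
          rintro (h | h)
          · exact n2 h.symm
          · exact n4 h.symm
        · rw [Finset.mem_insert, Finset.mem_insert, Finset.mem_singleton]
          rintro (h | h | h)
          · exact hne y₀ h.symm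
          · exact n1 h.symm
          · exact n3 h.symm
      obtain ⟨k, hk⟩ := htr y₁ ((hmem _).1 hy1)
      have hky : k • y₁ ∈ B := by
        have h3 := link_smul hG k ((hmem _).1 hy1)
        rw [hk] at h3
        exact (hmem _).2 (link_trans ((hmem _).1 hy1) h3)
      have e1 := hsum 1
      have e2 := hsum k
      rw [one_smul, one_smul] at e1
      rw [hk] at e2
      rw [← hQ] at hky
      simp only [Finset.mem_insert, Finset.mem_singleton] at hky
      have hW1 := hW0 y₁
      have hWy := hW0 y₀
      rcases hky with h3 | h3 | h3 | h3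
      · rw [h3] at e2
        by_contra hc0
        have h4 : c y₀ * (W y₀ ^ 2 - W y₁ ^ 2) = 0 := by linear_combination W y₀ * e1 - W y₁ * e2
        have h5 := (mul_eq_zero.1 h4).resolve_left hc0
        have h6 : (W y₀ - W y₁) * (W y₀ + W y₁) = 0 := by linear_combination h5
        rcases mul_eq_zero.1 h6 with h7 | h7
        · exact n1 (hinj (by linarith))
        · apply n2
          apply hinj
          rw [hW]
          linarith
      · rw [h3, hW] at e2
        have h4 : c y₀ * (W y₀ ^ 2 + W y₁ ^ 2) = 0 := by linear_combination W y₀ * e1 + W y₁ * e2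
        refine (mul_eq_zero.1 h4).resolve_right fun h5 => ?_
        have h6 : 0 < W y₀ ^ 2 := by positivity
        have h7 := sq_nonneg (W y₁)
        linarith
      · exfalso
        have h4 : k • y₁ = k • y₀ := by rw [h3, hk]
        exact n1 (smul_left_cancel k h4)
      · exfalso
        have h4 : k • y₁ = k • cb y₀ := by rw [h3, hG, hk]
        exact n2 (smul_left_cancel k h4)
  · -- good classes
    obtain ⟨σ, y, hy, hmove, hinv⟩ := exists_moved_of_good hcb hne hG hgood hW
      (fun y y' h => hinj (by have h1 := h 1; rwa [one_smul, one_smul] at h1)) hc hrel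
    obtain ⟨k, rfl⟩ := htr y hy
    let H : Subgroup G :=
      { carrier := {τ | ∀ g : G, c (g • τ • y₀) = c (g • y₀)}
        one_mem' := fun g => by rw [one_smul]
        mul_mem' := by
          intro a b ha hb g
          rw [mul_smul, ← mul_smul g a, hb, mul_smul, ha]
        inv_mem' := by
          intro a ha g
          have h1 := ha (g * a⁻¹)
          rw [← mul_smul, inv_mul_cancel_right] at h1
          rw [← mul_smul]
          exact h1.symm }
    have hstab : MulAction.stabilizer G y₀ ≤ H := by
      intro τ hτ g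
      rw [MulAction.mem_stabilizer_iff] at hτ
      rw [hτ]
    have hmem : k⁻¹ * σ * k ∈ H := by
      intro g
      have h1 := hinv (g * k⁻¹)
      rw [mul_smul, mul_smul, inv_smul_smul] at h1
      rw [mul_smul, mul_smul]
      exact h1
    have hlt : MulAction.stabilizer G y₀ < H := by
      refine lt_of_le_of_ne hstab fun h => hmove ?_
      rw [← h, MulAction.mem_stabilizer_iff, mul_smul, mul_smul, inv_smul_eq_iff] at hmem
      exact hmem
    obtain ⟨τ, hτ, hτ'⟩ := hrig H hlt
    have h1 := hτ 1
    rw [one_smul, one_smul, hτ', hc] at h1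
    omega

/-- The image of the group in the group of permutations. -/
theorem tame_range {y₀ : Y} (h : Tame G cb y₀) :
    Tame (MulAction.toPermHom G Y).range cb y₀ := by
  let f := Equiv.refl Y
  have hcb' : ∀ y, f (cb y) = cb (f y) := fun y => rfl
  have e1 : ∀ g : (MulAction.toPermHom G Y).range, ∃ g' : G, ∀ y, f (g • y) = g' • f y := by
    rintro ⟨_, g', rfl⟩
    exact ⟨g', fun y => rfl⟩
  have e2 : ∀ g' : G, ∃ g : (MulAction.toPermHom G Y).range, ∀ y, f (g • y) = g' • f y :=
    fun g' => ⟨⟨_, g', rfl⟩, fun y => rfl⟩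
  have hl : ∀ z, Link (MulAction.toPermHom G Y).range cb y₀ z ↔ Link G cb y₀ z :=
    fun z => link_iff f hcb' e1 e2 y₀ z
  obtain ⟨htr, h⟩ := h
  refine ⟨fun z hz => ?_, ?_⟩
  · obtain ⟨g, hg⟩ := htr z ((hl z).1 hz)
    exact ⟨⟨_, g, rfl⟩, hg⟩
  · rcases h with h | ⟨h, hrig⟩
    · left
      rw [Nat.card_congr (Equiv.subtypeEquivRight hl)]
      exact h
    · refine Or.inr ⟨goodClass_transfer f hcb' e1 e2 h, fun H hH => ?_⟩
      let r : G →* (MulAction.toPermHom G Y).range := (MulAction.toPermHom G Y).rangeRestrict
      have hr : ∀ (g : G) (y : Y), r g • y = g • y := fun g y => rfl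
      have hrs : Function.Surjective r := (MulAction.toPermHom G Y).rangeRestrict_surjective
      obtain ⟨g, hg, hg'⟩ := hrig (H.comap r) (by
        refine lt_of_le_of_ne (fun τ hτ => ?_) (fun heq => ?_)
        · rw [Subgroup.mem_comap]
          apply hH.le
          rw [MulAction.mem_stabilizer_iff] at hτ ⊢
          rw [hr, hτ]
        · obtain ⟨a, ha, ha'⟩ := Set.exists_of_ssubset hH
          obtain ⟨b, rfl⟩ := hrs a
          apply ha'
          have hb : b ∈ H.comap r := ha
          rw [← heq] at hb
          change r b • y₀ = y₀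
          exact hb)
      exact ⟨r g, hg, hg'⟩

include hcb hne hG in
/-- Relations vanish at the points with tame classes, also for infinite groups. -/
theorem zero_of_tame' {y₀ : Y} (h : Tame G cb y₀) {W : Y → ℤ}
    (hW : ∀ y, W (cb y) = -W y) (hinj : Function.Injective W) {c : Y → ℤ}
    (hc : ∀ y, c (cb y) = -c y) (hrel : ∀ g : G, ∑ y, c y * W (g • y) = 0) : c y₀ = 0 := by
  refine zero_of_tame (G := (MulAction.toPermHom G Y).range) hcb hne ?_ (tame_range h) hW hinj
    hc ?_
  · rintro ⟨_, g, rfl⟩ y
    exact hG g y
  · rintro ⟨_, g, rfl⟩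
    exact hrel g

end Pool.Agent.TH127.PT
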