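import Mathlib
import Pool.Agent.TH127.PT.Rel

/-!
# Relations in classes of at most two pairs, for separated functions
-/

set_option linter.unusedSectionVars false
set_option linter.unusedVariables false

namespace Pool.Agent.TH127.PT

open Pool.Agent.TH127.SC

variable {G Y : Type*} [Group G] [MulAction G Y] {cb : Y → Y} [Fintype Y]
  (hcb : ∀ y, cb (cb y) = y) (hne : ∀ y, cb y ≠ y)
  (hG : ∀ (g : G) (y : Y), g • cb y = cb (g • y))

/-- The elements of the class of `y₀` are translates of `y₀`, and there are at most two pairs. -/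
def TwoPairs (G : Type*) {Y : Type*} [Group G] [MulAction G Y] (cb : Y → Y) (y₀ : Y) : Prop :=
  (∀ z, Link G cb y₀ z → ∃ g : G, g • y₀ = z) ∧ Nat.card {z : Y // Link G cb y₀ z} ≤ 4

include hcb hne hG in
/-- Relations vanish at the points with classes of at most two pairs. -/
theorem zero_of_twoPairs [Finite G] {y₀ : Y} (h : TwoPairs G cb y₀) {W : Y → ℤ}
    (hW : ∀ y, W (cb y) = -W y) (hsep : ∀ y y' : Y, (∀ g : G, W (g • y) = W (g • y')) → y = y')
    {c : Y → ℤ} (hc : ∀ y, c (cb y) = -c y) (hrel : ∀ g : G, ∑ y, c y * W (g • y) = 0) :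
    c y₀ = 0 := by
  classical
  have := Fintype.ofFinite G
  obtain ⟨htr, h⟩ := h
  have hW0 : ∀ y, ∃ g : G, W (g • y) ≠ 0 := by
    intro y
    by_contra hcon
    push Not at hcon
    exact hne y (hsep _ _ fun g => by rw [hG, hW, hcon, neg_zero])
  have hcl := core_split hG hW hrel y₀
  set B := Finset.univ.filter (fun z => Link G cb y₀ z) with hB
  have hmem : ∀ z, z ∈ B ↔ Link G cb y₀ z := fun z => by simp [hB]
  have hBc : B.card ≤ 4 := by
    rw [hB, ← Fintype.card_subtype, ← Nat.card_eq_fintype_card]
    exact h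
  have hy0 : y₀ ∈ B := (hmem _).2 (link_refl _)
  have hy0' : cb y₀ ∈ B := (hmem _).2 (link_cb hcb hne hG _)
  by_cases h2 : B = {y₀, cb y₀}
  · obtain ⟨g, hg⟩ := hW0 y₀
    have h3 := hcl g
    rw [h2, Finset.sum_pair (Ne.symm (hne y₀)), hG, hc, hW] at h3
    have h4 : c y₀ * W (g • y₀) = 0 := by linarith
    exact (mul_eq_zero.1 h4).resolve_right hg
  · obtain ⟨y₁, hy1, hy1'⟩ : ∃ y₁ ∈ B, y₁ ∉ ({y₀, cb y₀} : Finset Y) := by
      by_contra hcon
      push Not at hcon
      apply h2
      apply Finset.Subset.antisymm (fun z hz => hcon z hz)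
      intro z hz
      rw [Finset.mem_insert, Finset.mem_singleton] at hz
      rcases hz with rfl | rfl
      · exact hy0
      · exact hy0'
    rw [Finset.mem_insert, Finset.mem_singleton, not_or] at hy1'
    obtain ⟨n1, n2⟩ := hy1'
    have n3 : cb y₁ ≠ y₀ := fun h => n2 (by rw [← h, hcb])
    have n4 : cb y₁ ≠ cb y₀ := fun h => n1 (by rw [← hcb y₁, h, hcb])
    have hd1 : y₁ ∉ ({cb y₁} : Finset Y) := by
      rw [Finset.mem_singleton]
      exact Ne.symm (hne y₁)
    have hd2 : cb y₀ ∉ ({y₁, cb y₁} : Finset Y) := by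
      rw [Finset.mem_insert, Finset.mem_singleton]
      rintro (h | h)
      · exact n2 h.symm
      · exact n4 h.symm
    have hd3 : y₀ ∉ ({cb y₀, y₁, cb y₁} : Finset Y) := by
      rw [Finset.mem_insert, Finset.mem_insert, Finset.mem_singleton]
      rintro (h | h | h)
      · exact hne y₀ h.symm
      · exact n1 h.symm
      · exact n3 h.symm
    have hQ : ({y₀, cb y₀, y₁, cb y₁} : Finset Y) = B := by
      apply Finset.eq_of_subset_of_card_le
      · intro z hz
        simp only [Finset.mem_insert, Finset.mem_singleton] at hz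
        rcases hz with rfl | rfl | rfl | rfl
        · exact hy0
        · exact hy0'
        · exact hy1
        · exact (hmem _).2 (link_trans ((hmem _).1 hy1) (link_cb hcb hne hG _))
      · rw [Finset.card_insert_of_notMem hd3, Finset.card_insert_of_notMem hd2,
          Finset.card_insert_of_notMem hd1, Finset.card_singleton]
        exact hBc
    have hsum : ∀ g : G, c y₀ * W (g • y₀) + c y₁ * W (g • y₁) = 0 := by
      intro g
      have h3 := hcl g
      rw [← hQ, Finset.sum_insert hd3, Finset.sum_insert hd2, Finset.sum_insert hd1,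
        Finset.sum_singleton, hG, hG, hc, hc, hW, hW] at h3
      linarith
    obtain ⟨k, hk⟩ := htr y₁ ((hmem _).1 hy1)
    have hky : k • y₁ ∈ B := by
      have h3 := link_smul hG k ((hmem _).1 hy1)
      rw [hk] at h3
      exact (hmem _).2 (link_trans ((hmem _).1 hy1) h3)
    have e2 : ∀ g : G, c y₀ * W (g • y₁) + c y₁ * W (g • k • y₁) = 0 := by
      intro g
      have h3 := hsum (g * k)
      rw [mul_smul, mul_smul, hk] at h3
      exact h3
    rw [← hQ] at hky
    simp only [Finset.mem_insert, Finset.mem_singleton] at hky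
    by_contra hc0
    rcases hky with h3 | h3 | h3 | h3
    · rw [h3] at e2
      by_cases h4 : c y₀ + c y₁ = 0
      · apply n1
        refine hsep _ _ fun g => ?_
        have h5 : (2 * c y₀) * (W (g • y₁) - W (g • y₀)) = 0 := by
          have h6 := hsum g
          have h7 := e2 g
          have h8 : c y₁ = - c y₀ := by linarith
          rw [h8] at h6 h7
          linear_combination h7 - h6
        have h6 := (mul_eq_zero.1 h5).resolve_left (mul_ne_zero two_ne_zero hc0)
        linarith
      · apply n3
        refine hsep _ _ fun g => ?_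
        have h5 : (c y₀ + c y₁) * (W (g • y₀) + W (g • y₁)) = 0 := by
          linear_combination hsum g + e2 g
        have h6 := (mul_eq_zero.1 h5).resolve_left h4
        rw [hG, hW]
        linarith
    · rw [h3] at e2
      obtain ⟨g, hg⟩ := hW0 y₀
      have h7 := e2 g
      rw [hG, hW] at h7
      have h4 : c y₀ * (W (g • y₀) ^ 2 + W (g • y₁) ^ 2) = 0 := by
        linear_combination W (g • y₀) * hsum g + W (g • y₁) * h7
      have h5 := (mul_eq_zero.1 h4).resolve_left hc0
      have h6 : 0 < W (g • y₀) ^ 2 := by positivity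
      have h8 := sq_nonneg (W (g • y₁))
      linarith
    · have h4 : k • y₁ = k • y₀ := by rw [h3, hk]
      exact n1 (smul_left_cancel k h4)
    · have h4 : k • y₁ = k • cb y₀ := by rw [h3, hG, hk]
      exact n2 (smul_left_cancel k h4)

end Pool.Agent.TH127.PT
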