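import Mathlib
import Pool.Agent.TH127.PT.Rel
import Pool.Agent.W527.VPeriod

/-!
# Monomial relations between periods, stable under a group
-/

set_option linter.unusedSectionVars false
set_option linter.unusedVariables false

namespace Pool.Agent.TH127.PT

open Pool.Agent.TH127.SC Pool.Agent.W527.Vec

noncomputable section

theorem lg_zpow {z : ℂ} (hz : z ≠ 0) (n : ℤ) : lg (z ^ n) = n • lg z := by
  obtain ⟨m, rfl | rfl⟩ := n.eq_nat_or_neg
  · rw [zpow_natCast, lg_pow hz, natCast_zsmul]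
  · rw [zpow_neg, zpow_natCast, lg_inv (pow_ne_zero _ hz), lg_pow hz, neg_smul, natCast_zsmul]

/-- `2 π i`. -/
def tpi : ℂ := 2 * Real.pi * Complex.I

theorem tpi_ne : tpi ≠ 0 := Complex.two_pi_I_ne_zero

variable {G Y : Type*} [Group G] [MulAction G Y] {cb : Y → Y} [Fintype Y]
  (hcb : ∀ y, cb (cb y) = y) (hne : ∀ y, cb y ≠ y)
  (hG : ∀ (g : G) (y : Y), g • cb y = cb (g • y))

/-- The logarithm of the normalised period. -/
def WW (θ : Y → ℂ) (y : Y) : VV := lg (θ y ^ 2 / tpi)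

section

variable {θ : Y → ℂ} (hθ : ∀ y, θ y ≠ 0)

include hθ in
theorem WW_eq (y : Y) : WW θ y = (2 : ℤ) • lg (θ y) - lg tpi := by
  unfold WW
  rw [lg_div (pow_ne_zero _ (hθ y)) tpi_ne, lg_pow (hθ y), ← natCast_zsmul]
  rfl

include hθ in
theorem WW_odd (hR : ∀ y, θ y * θ (cb y) / tpi ∈ algebraicClosure ℚ ℂ) (y : Y) :
    WW θ (cb y) = - WW θ y := by
  rw [eq_neg_iff_add_eq_zero]
  unfold WW
  rw [← lg_mul (div_ne_zero (pow_ne_zero _ (hθ _)) tpi_ne)
    (div_ne_zero (pow_ne_zero _ (hθ _)) tpi_ne), lg_eq_zero (mul_ne_zero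
    (div_ne_zero (pow_ne_zero _ (hθ _)) tpi_ne) (div_ne_zero (pow_ne_zero _ (hθ _)) tpi_ne))]
  have h1 : θ (cb y) ^ 2 / tpi * (θ y ^ 2 / tpi) = (θ y * θ (cb y) / tpi) ^ 2 := by ring
  rw [h1]
  exact pow_mem (hR y) 2

include hθ in
theorem WW_inj (hS : ∀ y z, y ≠ z → θ y / θ z ∉ algebraicClosure ℚ ℂ) {y z : Y}
    (h : WW θ y = WW θ z) : y = z := by
  by_contra hyz
  apply hS y z hyz
  rw [WW_eq hθ, WW_eq hθ, sub_left_inj, ← sub_eq_zero, ← smul_sub] at h
  have h1 := Pool.Agent.W527.Vec.zs_cancel two_ne_zero h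
  rw [← lg_div (hθ y) (hθ z), lg_eq_zero (div_ne_zero (hθ y) (hθ z))] at h1
  exact h1

theorem sum_cb {V : Type*} [AddCommGroup V] (hcb : ∀ y, cb (cb y) = y) (F : Y → V) :
    ∑ y, F (cb y) = ∑ y, F y :=
  Equiv.sum_comp (Function.Involutive.toPerm cb hcb) F

include hcb hne hG hθ in
/-- Monomials that are algebraic together with all their translates. -/
theorem lattice_trivial (htame : ∀ y, Tame G cb y)
    (hR : ∀ y, θ y * θ (cb y) / tpi ∈ algebraicClosure ℚ ℂ)
    (hS : ∀ y z, y ≠ z → θ y / θ z ∉ algebraicClosure ℚ ℂ)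
    (hpi : tpi ∉ algebraicClosure ℚ ℂ) (c : Y → ℤ)
    (hc : ∀ g : G, ∏ y, θ y ^ c (g • y) ∈ algebraicClosure ℚ ℂ) :
    (∀ y, c (cb y) = c y) ∧ ∑ y, c y = 0 := by
  classical
  have hsumc : ∀ g : G, ∑ y, c (g • y) = ∑ y, c y := fun g =>
    Equiv.sum_comp (MulAction.toPerm g) c
  have hrelV : ∀ g : G, ∑ y, c (g • y) • WW θ y + (∑ y, c y) • lg tpi = 0 := by
    intro g
    have h1 := hc g
    rw [← lg_eq_zero (Finset.prod_ne_zero_iff.2 fun y _ => zpow_ne_zero _ (hθ y)),
      lg_prod _ _ (fun y _ => zpow_ne_zero _ (hθ y))] at h1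
    simp only [lg_zpow (hθ _)] at h1
    have h2 : ∑ y, c (g • y) • WW θ y = (2 : ℤ) • ∑ y, c (g • y) • lg (θ y) -
        (∑ y, c y) • lg tpi := by
      rw [← hsumc g, Finset.smul_sum, Finset.sum_smul, ← Finset.sum_sub_distrib]
      refine Finset.sum_congr rfl fun y _ => ?_
      rw [WW_eq hθ, smul_sub, smul_comm]
    rw [h2, h1, smul_zero, zero_sub, neg_add_cancel]
  obtain ⟨f, W, hW, hWsep⟩ := exists_int (WW θ)
  have hWodd : ∀ y, W (cb y) = - W y := by
    intro y
    have h1 : ((W (cb y) : ℤ) : ℚ) = ((- W y : ℤ) : ℚ) := by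
      rw [hW, WW_odd hθ hR, map_neg, Int.cast_neg, hW]
    exact_mod_cast h1
  have hinj : Function.Injective W := fun y z h => WW_inj hθ hS (hWsep y z h)
  -- the rational relations
  have hrelQ : ∀ g : G, ∑ y, (c (g • y) : ℚ) * W y = - ((∑ y, c y : ℤ) : ℚ) * f (lg tpi) := by
    intro g
    have h1 := congrArg f (hrelV g)
    rw [map_add, map_sum, map_zero, map_zsmul, zsmul_eq_mul] at h1
    have h2 : ∑ y, f (c (g • y) • WW θ y) = ∑ y, (c (g • y) : ℚ) * W y := by
      refine Finset.sum_congr rfl fun y _ => ?_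
      rw [map_zsmul, zsmul_eq_mul, hW]
    rw [h2] at h1
    linarith
  -- the constant vanishes
  have hs : ∀ g : G, ∑ y, (c (g • y) : ℚ) * W y = 0 := by
    let G0 := (MulAction.toPermHom G Y).range
    have := Fintype.ofFinite G0
    have h1 : ∀ g0 : G0, ∑ y, (c (g0 • y) : ℚ) * W y =
        - ((∑ y, c y : ℤ) : ℚ) * f (lg tpi) := by
      rintro ⟨_, g, rfl⟩
      exact hrelQ g
    have h2 : ∑ g0 : G0, ∑ y, (c (g0 • y) : ℚ) * W y = 0 := by
      rw [Finset.sum_comm]
      have h3 : ∀ y, ∑ g0 : G0, (c (g0 • y) : ℚ) * W y = (∑ g0 : G0, (c (g0 • y) : ℚ)) * W y :=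
        fun y => (Finset.sum_mul _ _ _).symm
      rw [Finset.sum_congr rfl (fun y _ => h3 y)]
      set C : Y → ℚ := fun y => ∑ g0 : G0, (c (g0 • y) : ℚ) with hC
      have h4 : ∀ y, C (cb y) = C y := by
        intro y
        obtain ⟨g, hg⟩ := (htame y).1 (cb y) (link_cb hcb hne hG y)
        rw [hC]
        simp only
        rw [← hg]
        exact Fintype.sum_equiv (Equiv.mulRight (⟨MulAction.toPermHom G Y g, g, rfl⟩ : G0)) _ _
          fun g0 => by
            rw [Equiv.coe_mulRight, mul_smul]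
            rfl
      have h5 : ∑ y, C (cb y) * (W (cb y) : ℚ) = - ∑ y, C y * W y := by
        rw [← Finset.sum_neg_distrib]
        refine Finset.sum_congr rfl fun y _ => ?_
        rw [h4, hWodd]
        push_cast
        ring
      have h6 := sum_cb hcb (fun y => C y * (W y : ℚ))
      linarith
    rw [Finset.sum_congr rfl (fun g0 _ => h1 g0), Finset.sum_const, nsmul_eq_mul,
      mul_eq_zero] at h2
    have h3 : - ((∑ y, c y : ℤ) : ℚ) * f (lg tpi) = 0 := by
      refine h2.resolve_left ?_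
      rw [Finset.card_univ]
      exact Nat.cast_ne_zero.2 Fintype.card_ne_zero
    intro g
    rw [hrelQ, h3]
  have hsZ : ∀ g : G, ∑ y, c y * W (g • y) = 0 := by
    intro g
    have h1 := hs g⁻¹
    have h2 : ∑ y, (c (g⁻¹ • y) : ℚ) * W y = ∑ y, (c y : ℚ) * W (g • y) := by
      refine (Fintype.sum_equiv (MulAction.toPerm g) _ _ fun y => ?_).symm
      rw [MulAction.toPerm_apply, inv_smul_smul]
    rw [h2] at h1
    exact_mod_cast h1
  have hfix : ∀ y, c (cb y) = c y := by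
    intro y
    have h1 := zero_of_tame' hcb hne hG (htame y) hWodd hinj (c := fun y => c y - c (cb y))
      (fun y => by
        simp only [hcb]
        ring)
      (fun g => by
        have h2 : ∑ y, c (cb y) * W (g • y) = 0 := by
          rw [← sum_cb hcb (fun y => c (cb y) * W (g • y))]
          simp only [hcb, hG, hWodd, mul_neg, Finset.sum_neg_distrib]
          rw [hsZ g, neg_zero]
        simp only [sub_mul, Finset.sum_sub_distrib]
        rw [hsZ g, h2, sub_zero])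
    have h2 : c y - c (cb y) = 0 := h1
    omega
  refine ⟨hfix, ?_⟩
  have h1 : ∑ y, c y • WW θ y = 0 := by
    have h2 : ∑ y, c y • WW θ y = - ∑ y, c y • WW θ y := by
      conv_lhs => rw [← sum_cb hcb (fun y => c y • WW θ y)]
      rw [← Finset.sum_neg_distrib]
      refine Finset.sum_congr rfl fun y _ => ?_
      rw [hfix, WW_odd hθ hR, smul_neg]
    have h3 : (2 : ℤ) • ∑ y, c y • WW θ y = 0 := by
      rw [two_zsmul]
      nth_rewrite 1 [h2]
      exact neg_add_cancel _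
    exact Pool.Agent.W527.Vec.zs_cancel two_ne_zero h3
  have h2 := hrelV 1
  simp only [one_smul] at h2
  rw [h1, zero_add] at h2
  by_contra hcon
  have h3 := Pool.Agent.W527.Vec.zs_cancel hcon h2
  exact hpi ((lg_eq_zero tpi_ne).1 h3)

end

end

end Pool.Agent.TH127.PT
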