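import Mathlib

/-!
# Closed subgroups of tori and characters
-/

namespace Pool.Agent.TH127.PT

open MvPolynomial

variable {Y : Type*} [Fintype Y]

/-- The monomial character. -/
noncomputable def mono (H : Subgroup (Y → ℂˣ)) (m : Y →₀ ℕ) : H →* ℂ where
  toFun u := ((∏ y, (u : Y → ℂˣ) y ^ m y : ℂˣ) : ℂ)
  map_one' := by simp
  map_mul' u v := by
    rw [← Units.val_mul, ← Finset.prod_mul_distrib]
    simp only [Subgroup.coe_mul, Pi.mul_apply, mul_pow]

theorem mono_apply (H : Subgroup (Y → ℂˣ)) (m : Y →₀ ℕ) (u : H) :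
    mono H m u = ∏ y, (((u : Y → ℂˣ) y : ℂˣ) : ℂ) ^ m y := by
  change ((∏ y, (u : Y → ℂˣ) y ^ m y : ℂˣ) : ℂ) = _
  rw [Units.coe_prod]
  exact Finset.prod_congr rfl fun y _ => Units.val_pow_eq_pow_val _ _

/-- A subgroup of a torus defined by polynomials is an intersection of kernels of characters. -/
theorem mem_of_characters (H : Subgroup (Y → ℂˣ)) (I : Set (MvPolynomial Y ℂ))
    (hI : ∀ u : Y → ℂˣ, u ∈ H ↔ ∀ p ∈ I, eval (fun y => (u y : ℂ)) p = 0) (t : Y → ℂˣ)
    (ht : ∀ c : Y → ℤ, (∀ u ∈ H, ∏ y, u y ^ c y = 1) → ∏ y, t y ^ c y = 1) : t ∈ H := by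
  classical
  rw [hI]
  intro p hp
  have hrel : ∑ m ∈ p.support, p.coeff m • (mono H m : H → ℂ) = 0 := by
    funext u
    rw [Finset.sum_apply, Pi.zero_apply]
    have h1 := (hI u).1 u.2 p hp
    rw [eval_eq'] at h1
    rw [← h1]
    refine Finset.sum_congr rfl fun m _ => ?_
    rw [Pi.smul_apply, mono_apply, smul_eq_mul]
  have hb : ∀ ψ ∈ p.support.image (mono H), ∑ m ∈ p.support.filter (fun m => mono H m = ψ),
      p.coeff m = 0 := by
    have h1 : ∑ ψ ∈ p.support.image (mono H),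
        (∑ m ∈ p.support.filter (fun m => mono H m = ψ), p.coeff m) • (ψ : H → ℂ) = 0 := by
      rw [← hrel, ← Finset.sum_fiberwise_of_maps_to (g := mono H) (t := p.support.image (mono H))
        (fun m hm => Finset.mem_image_of_mem _ hm)]
      refine Finset.sum_congr rfl fun ψ _ => ?_
      rw [Finset.sum_smul]
      refine Finset.sum_congr rfl fun m hm => ?_
      rw [(Finset.mem_filter.1 hm).2]
    exact linearIndependent_iff'.1 (linearIndependent_monoidHom H ℂ) _ _ h1
  have hval : ∀ m m' : Y →₀ ℕ, mono H m = mono H m' →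
      ∏ y, ((t y : ℂˣ) : ℂ) ^ m y = ∏ y, ((t y : ℂˣ) : ℂ) ^ m' y := by
    intro m m' h
    have h1 := ht (fun y => (m y : ℤ) - m' y) (fun u hu => by
      have h2 := DFunLike.congr_fun h ⟨u, hu⟩
      rw [mono_apply, mono_apply] at h2
      have h3 : ∏ y, u y ^ m y = ∏ y, u y ^ m' y := by
        apply Units.ext
        rw [Units.coe_prod, Units.coe_prod]
        exact_mod_cast h2
      simp only [zpow_sub, zpow_natCast]
      rw [Finset.prod_mul_distrib, Finset.prod_inv_distrib, h3, mul_inv_cancel])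
    simp only [zpow_sub, zpow_natCast] at h1
    rw [Finset.prod_mul_distrib, Finset.prod_inv_distrib, mul_inv_eq_one] at h1
    have h2 := congrArg (fun x : ℂˣ => (x : ℂ)) h1
    simp only [Units.coe_prod, Units.val_pow_eq_pow_val] at h2
    exact h2
  rw [eval_eq', ← Finset.sum_fiberwise_of_maps_to (g := mono H)
    (t := p.support.image (mono H)) (fun m hm => Finset.mem_image_of_mem _ hm)]
  refine Finset.sum_eq_zero fun ψ hψ => ?_
  obtain ⟨m₀, hm₀, rfl⟩ := Finset.mem_image.1 hψ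
  have h1 := hb _ hψ
  calc ∑ m ∈ p.support.filter (fun m => mono H m = mono H m₀),
        p.coeff m * ∏ y, ((t y : ℂˣ) : ℂ) ^ m y
      = ∑ m ∈ p.support.filter (fun m => mono H m = mono H m₀),
        p.coeff m * ∏ y, ((t y : ℂˣ) : ℂ) ^ m₀ y := by
        refine Finset.sum_congr rfl fun m hm => ?_
        rw [hval m m₀ (Finset.mem_filter.1 hm).2]
    _ = 0 := by rw [← Finset.sum_mul, h1, zero_mul]

end Pool.Agent.TH127.PT
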