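import Mathlib
import Pool.Agent.TH127.PT.Torus
import Pool.Agent.TH119.MX.Gal
import Pool.Agent.TH127.PT.Defs

/-!
# Subtorsors over a field of algebraic numbers that contain a period matrix of CM type
-/

set_option linter.unusedSectionVars false
set_option linter.unusedVariables false

namespace Pool.Agent.TH127.PT

open Matrix MvPolynomial

theorem eval_bind {B Y : Type*} (g : B → MvPolynomial Y ℂ) (s : Y → ℂ) (p : MvPolynomial B ℂ) :
    eval s (bind₁ g p) = eval (fun b => eval s (g b)) p := by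
  induction p using MvPolynomial.induction_on with
  | C a => rw [bind₁_C_right, eval_C, eval_C]
  | add p q hp hq => rw [map_add, map_add, map_add, hp, hq]
  | mul_X p b hp => rw [map_mul, map_mul, map_mul, hp, bind₁_X_right, eval_X]

theorem eval_aut {B : Type*} [Fintype B] {K : Subfield ℂ} {σ : ℂ ≃+* ℂ} (hσ : σ ∈ fixing K)
    {p : MvPolynomial B ℂ} (hp : ∀ m, p.coeff m ∈ K) (x : B → ℂ) :
    eval (fun b => σ (x b)) p = σ (eval x p) := by
  rw [eval_eq', eval_eq', map_sum]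
  refine Finset.sum_congr rfl fun m _ => ?_
  rw [map_mul, map_prod, hσ _ (hp m)]
  simp only [map_pow]

section

variable {N : Type} [Fintype N] [DecidableEq N] {K : Subfield ℂ} {T : Set (Matrix N N ℂ)}

theorem map_mem (hT : IsSubtorsor K T) {σ : ℂ ≃+* ℂ} (hσ : σ ∈ fixing K) {x : Matrix N N ℂ}
    (hx : x ∈ T) : x.map σ ∈ T := by
  obtain ⟨I, h1, h2⟩ := hT.algebraic
  rw [h2]
  refine ⟨?_, fun p hp => ?_⟩
  · have h3 := (hT.isUnit x hx).map ((σ : ℂ →+* ℂ).mapMatrix (m := N))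
    exact h3
  · have h3 := ((h2 x).1 hx).2 p hp
    have h4 := eval_aut hσ (h1 p hp) (fun b : N × N => x b.1 b.2)
    rw [h3, map_zero] at h4
    exact h4

end

section main

variable {N : Type} [Fintype N] [DecidableEq N] {Y Y' : Type} [Fintype Y] [Fintype Y']
  [DecidableEq Y'] {K : Subfield ℂ} [MulAction (ℂ ≃+* ℂ) Y] [MulAction (ℂ ≃+* ℂ) Y']
  {π : Y' → Y} (hπ : ∀ (σ : ℂ ≃+* ℂ) y, π (σ • y) = σ • π y)
  {Φ : Matrix Y' N ℂ} (hΦ : ∀ (σ : ℂ ≃+* ℂ) y n, σ (Φ y n) = Φ (σ • y) n)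
  {Ψ : Matrix N Y' ℂ} (h1 : Ψ * Φ = 1) (h2 : Φ * Ψ = 1)

/-- The automorphism of the Betti space given by scalars at the embeddings. -/
noncomputable def EE (π : Y' → Y) (Φ : Matrix Y' N ℂ) (Ψ : Matrix N Y' ℂ) (s : Y → ℂˣ) :
    Matrix N N ℂ :=
  Ψ * diagonal (fun y => ((s (π y) : ℂˣ) : ℂ)) * Φ

include h2 in
theorem EE_mul (s u : Y → ℂˣ) : EE π Φ Ψ s * EE π Φ Ψ u = EE π Φ Ψ (s * u) := by
  unfold EE
  rw [Matrix.mul_assoc, Matrix.mul_assoc, Matrix.mul_assoc, ← Matrix.mul_assoc Φ Ψ, h2,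
    Matrix.one_mul, ← Matrix.mul_assoc (diagonal _) (diagonal _), diagonal_mul_diagonal,
    ← Matrix.mul_assoc]
  rfl

include h1 in
theorem EE_one : EE π Φ Ψ 1 = 1 := by
  unfold EE
  have h3 : (diagonal (fun y => (((1 : Y → ℂˣ) (π y) : ℂˣ) : ℂ)) : Matrix Y' Y' ℂ) = 1 := by
    rw [← diagonal_one]
    rfl
  rw [h3, Matrix.mul_one, h1]

include h1 h2 in
theorem EE_inv (s : Y → ℂˣ) : (EE π Φ Ψ s)⁻¹ = EE π Φ Ψ s⁻¹ := by
  apply Matrix.inv_eq_right_inv
  rw [EE_mul h2, mul_inv_cancel, EE_one h1]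

include h1 h2 in
theorem EE_isUnit (s : Y → ℂˣ) : IsUnit (EE π Φ Ψ s) := by
  refine ⟨⟨EE π Φ Ψ s, EE π Φ Ψ s⁻¹, ?_, ?_⟩, rfl⟩
  · rw [EE_mul h2, mul_inv_cancel, EE_one h1]
  · rw [EE_mul h2, inv_mul_cancel, EE_one h1]

variable {T : Set (Matrix N N ℂ)} (hT : IsSubtorsor K T) {P : Matrix N N ℂ} (hP : P ∈ T)

/-- The group of the scalars that preserve the subtorsor at the point `P`. -/
noncomputable def HH (h1 : Ψ * Φ = 1) (h2 : Φ * Ψ = 1) (hT : IsSubtorsor K T) (hP : P ∈ T)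
    (π : Y' → Y) : Subgroup (Y → ℂˣ) where
  carrier := {s | P * EE π Φ Ψ s ∈ T}
  one_mem' := by
    change P * EE π Φ Ψ 1 ∈ T
    rw [EE_one h1, Matrix.mul_one]
    exact hP
  mul_mem' := by
    intro a b ha hb
    have h3 := hT.torsor _ ha P hP _ hb
    have hdet : IsUnit P.det := (Matrix.isUnit_iff_isUnit_det P).1 (hT.isUnit P hP)
    rw [Matrix.mul_assoc, ← Matrix.mul_assoc P⁻¹ P, Matrix.nonsing_inv_mul P hdet,
      Matrix.one_mul, Matrix.mul_assoc, EE_mul h2] at h3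
    exact h3
  inv_mem' := by
    intro a ha
    have h3 := hT.torsor P hP _ ha P hP
    have hdet : IsUnit P.det := (Matrix.isUnit_iff_isUnit_det P).1 (hT.isUnit P hP)
    rw [Matrix.mul_inv_rev, Matrix.mul_assoc, Matrix.mul_assoc, Matrix.nonsing_inv_mul P hdet,
      Matrix.mul_one, EE_inv h1 h2] at h3
    exact h3

theorem mem_HH (s : Y → ℂˣ) : s ∈ HH h1 h2 hT hP π ↔ P * EE π Φ Ψ s ∈ T := Iff.rfl

include hπ hΦ in
/-- The group is stable under the automorphisms over `K`. -/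
theorem HH_aut {σ : ℂ ≃+* ℂ} (hσ : σ ∈ fixing K) {u : Y → ℂˣ}
    (hu : u ∈ HH h1 h2 hT hP π) :
    (fun y => Units.map (σ : ℂ →* ℂ) (u (σ⁻¹ • y))) ∈ HH h1 h2 hT hP π := by
  set u' : Y → ℂˣ := fun y => Units.map (σ : ℂ →* ℂ) (u (σ⁻¹ • y)) with hu'
  rw [mem_HH]
  have e1 := map_mem hT hσ hP
  have e2 : (P * EE π Φ Ψ u).map σ ∈ T := map_mem hT hσ hu
  have hdet : IsUnit (P.map σ).det := (Matrix.isUnit_iff_isUnit_det _).1 (hT.isUnit _ e1)
  have e3 := hT.torsor P hP _ e1 _ e2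
  have hmap : ∀ {A B C : Type} [Fintype A] [Fintype B] [Fintype C] (M : Matrix A B ℂ)
      (M' : Matrix B C ℂ), (M * M').map σ = M.map σ * M'.map σ := fun M M' => Matrix.map_mul
  have e4 : (EE π Φ Ψ u).map σ = EE π Φ Ψ u' := by
    -- `Φ X = D Φ`
    have f1 : Φ * EE π Φ Ψ u' = diagonal (fun y => ((u' (π y) : ℂˣ) : ℂ)) * Φ := by
      unfold EE
      rw [← Matrix.mul_assoc, ← Matrix.mul_assoc, h2, Matrix.one_mul]
    have f2 : Φ.map σ * EE π Φ Ψ u' = diagonal (fun y => σ ((u (π y) : ℂˣ) : ℂ)) * Φ.map σ := by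
      ext y n
      have f3 := congrFun (congrFun f1 (σ • y)) n
      rw [Matrix.diagonal_mul, Matrix.mul_apply] at f3
      rw [Matrix.diagonal_mul, Matrix.mul_apply]
      have f4 : ((u' (π (σ • y)) : ℂˣ) : ℂ) = σ ((u (π y) : ℂˣ) : ℂ) := by
        rw [hu']
        simp only [Units.coe_map]
        rw [hπ, inv_smul_smul]
        rfl
      rw [f4] at f3
      simp only [Matrix.map_apply, hΦ]
      exact f3
    have f5 : Ψ.map σ * Φ.map σ = 1 := by
      rw [← hmap, h1, Matrix.map_one σ (map_zero σ) (map_one σ)]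
    have f6 : (EE π Φ Ψ u).map σ =
        Ψ.map σ * (diagonal (fun y => σ ((u (π y) : ℂˣ) : ℂ)) * Φ.map σ) := by
      unfold EE
      rw [hmap, hmap, Matrix.diagonal_map (map_zero σ), Matrix.mul_assoc]
    rw [f6, ← f2, ← Matrix.mul_assoc, f5, Matrix.one_mul]
  rw [hmap, e4, Matrix.mul_assoc P, ← Matrix.mul_assoc (P.map σ)⁻¹,
    Matrix.nonsing_inv_mul _ hdet, Matrix.one_mul] at e3
  exact e3

variable {A : Matrix N Y' ℂ} {θ : Y → ℂ} (hθ : ∀ y, θ y ≠ 0)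
  (hPA : P = A * diagonal (fun y => θ (π y)) * Φ)

include hPA h2 in
theorem P_EE (s : Y → ℂˣ) :
    P * EE π Φ Ψ s = A * diagonal (fun y => θ (π y) * ((s (π y) : ℂˣ) : ℂ)) * Φ := by
  unfold EE
  rw [hPA, Matrix.mul_assoc (A * _) Φ, ← Matrix.mul_assoc Φ, ← Matrix.mul_assoc Φ, h2,
    Matrix.one_mul, ← Matrix.mul_assoc, Matrix.mul_assoc A, diagonal_mul_diagonal]

include hPA in
/-- Membership is determined by characters. -/
theorem mem_of_char (t : Y → ℂˣ)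
    (ht : ∀ c : Y → ℤ, (∀ u ∈ HH h1 h2 hT hP π, ∏ y, u y ^ c y = 1) → ∏ y, t y ^ c y = 1) :
    t ∈ HH h1 h2 hT hP π := by
  classical
  obtain ⟨I, -, hI⟩ := hT.algebraic
  let g : N × N → MvPolynomial Y ℂ := fun b =>
    ∑ y : Y', C (A b.1 y * θ (π y) * Φ y b.2) * X (π y)
  refine mem_of_characters _ ((fun p => bind₁ g p) '' I) (fun u => ?_) t ht
  rw [mem_HH, hI]
  have hg : ∀ b : N × N, eval (fun y => ((u y : ℂˣ) : ℂ)) (g b) = (P * EE π Φ Ψ u) b.1 b.2 := by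
    intro b
    rw [P_EE h2 hPA, map_sum, Matrix.mul_apply]
    refine Finset.sum_congr rfl fun y _ => ?_
    rw [map_mul, eval_C, eval_X, Matrix.mul_diagonal]
    ring
  have hunit : IsUnit (P * EE π Φ Ψ u) := (hT.isUnit P hP).mul (EE_isUnit h1 h2 u)
  constructor
  · rintro ⟨-, h⟩ _ ⟨p, hp, rfl⟩
    change eval _ (bind₁ g p) = 0
    rw [eval_bind]
    simp only [hg]
    exact h p hp
  · intro h
    refine ⟨hunit, fun p hp => ?_⟩
    have h3 := h _ ⟨p, hp, rfl⟩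
    change eval _ (bind₁ g p) = 0 at h3
    rw [eval_bind] at h3
    simp only [hg] at h3
    exact h3

include hπ hΦ hPA hθ in
/-- The characters of the group give monomials in the periods that are algebraic, together with
all their conjugates over `K`. -/
theorem char_algebraic (hK : ∀ x ∈ K, IsAlgebraic ℚ x) (hA : ∀ n y, IsAlgebraic ℚ (A n y))
    (hΦa : ∀ y n, IsAlgebraic ℚ (Φ y n)) {c : Y → ℤ}
    (hc : ∀ u ∈ HH h1 h2 hT hP π, ∏ y, u y ^ c y = 1) {σ : ℂ ≃+* ℂ} (hσ : σ ∈ fixing K) :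
    ∏ y, θ y ^ c (σ • y) ∈ algebraicClosure ℚ ℂ := by
  classical
  have hcσ : ∀ u ∈ HH h1 h2 hT hP π, ∏ y, u y ^ c (σ • y) = 1 := by
    intro u hu
    have e1 := hc _ (HH_aut hπ hΦ h1 h2 hT hP hσ hu)
    have e2 : ∏ y, (Units.map (σ : ℂ →* ℂ) (u (σ⁻¹ • y))) ^ c y =
        Units.map (σ : ℂ →* ℂ) (∏ y, u y ^ c (σ • y)) := by
      rw [map_prod]
      refine Fintype.prod_equiv (MulAction.toPerm σ⁻¹) _ _ fun y => ?_
      rw [MulAction.toPerm_apply, smul_inv_smul, map_zpow]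
    rw [e2] at e1
    apply Units.ext
    have e3 := congrArg (fun x : ℂˣ => (x : ℂ)) e1
    simp only [Units.coe_map, Units.val_one] at e3
    have e4 : σ ((∏ y, u y ^ c (σ • y) : ℂˣ) : ℂ) = 1 := e3
    rw [Units.val_one]
    exact (map_eq_one_iff σ σ.injective).1 e4
  by_contra hcon
  obtain ⟨τ, hτ, hne⟩ := Pool.Agent.TH119.MX.exists_move
    (F := (algebraicClosure ℚ ℂ).toSubfield) hcon
  have hfix : ∀ x, IsAlgebraic ℚ x → τ x = x := fun x hx =>
    hτ x (mem_algebraicClosure_iff.2 hx)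
  have hτK : τ ∈ fixing K := fun x hx => hfix x (hK x hx)
  let u : Y → ℂˣ := fun y => Units.mk0 (τ (θ y) / θ y)
    (div_ne_zero (fun h => hθ y ((map_eq_zero τ).1 h)) (hθ y))
  have hmap : ∀ {A B C : Type} [Fintype A] [Fintype B] [Fintype C] (M : Matrix A B ℂ)
      (M' : Matrix B C ℂ), (M * M').map τ = M.map τ * M'.map τ := fun M M' => Matrix.map_mul
  have hu : u ∈ HH h1 h2 hT hP π := by
    rw [mem_HH, P_EE h2 hPA]
    have e1 := map_mem hT hτK hP
    have e2 : P.map τ = A * diagonal (fun y => θ (π y) * ((u (π y) : ℂˣ) : ℂ)) * Φ := by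
      rw [hPA, hmap, hmap, Matrix.diagonal_map (map_zero τ)]
      have e3 : A.map τ = A := by
        ext i j
        exact hfix _ (hA i j)
      have e4 : Φ.map τ = Φ := by
        ext i j
        exact hfix _ (hΦa i j)
      rw [e3, e4]
      congr 2
      congr 1
      funext y
      change τ (θ (π y)) = θ (π y) * (τ (θ (π y)) / θ (π y))
      rw [mul_div_cancel₀ _ (hθ _)]
    rw [← e2]
    exact e1
  have e1 := hcσ u hu
  apply hne
  rw [map_prod]
  have e2 : ∀ y, τ (θ y ^ c (σ • y)) = θ y ^ c (σ • y) * ((u y ^ c (σ • y) : ℂˣ) : ℂ) := by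
    intro y
    have e3 : ((u y : ℂˣ) : ℂ) = τ (θ y) / θ y := rfl
    rw [map_zpow₀, Units.val_zpow_eq_zpow_val, e3, div_zpow, mul_div_cancel₀ _
      (zpow_ne_zero _ (hθ y))]
  rw [Finset.prod_congr rfl (fun y _ => e2 y), Finset.prod_mul_distrib, ← Units.coe_prod, e1,
    Units.val_one, mul_one]

end main

end Pool.Agent.TH127.PT
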